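import Mathlib

/-!
# FD: independence of hypergeometric terms (Casorati) and root classes

`cas`: if the ratios `ρ i` are pairwise non-similar (`σ u / u ≠ ρ i / ρ j`) then the Casorati matrix of the family is
non-singular.  `cl`: number of roots of a polynomial in the class `α + ℤ`.
-/

set_option autoImplicit false

noncomputable section

namespace H11FD

open Finset

section Cas

variable {F : Type*} [Field F] (σ : F →+* F) {ι : Type*}

/-- the values of the family: `G 0 = 1`, `G (s + 1) = ρ * σ (G s)` -/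
def G (ρ : ι → F) (i : ι) : ℕ → F
  | 0 => 1
  | s + 1 => ρ i * σ (G ρ i s)

theorem G_zero (ρ : ι → F) (i : ι) : G σ ρ i 0 = 1 := rfl

theorem G_succ (ρ : ι → F) (i : ι) (s : ℕ) : G σ ρ i (s + 1) = ρ i * σ (G σ ρ i s) := rfl

theorem G_map (ρ : ι → F) (i : ι) (s : ℕ) :
    G σ (fun i => σ (ρ i)) i s = σ (G σ ρ i s) := by
  induction s with
  | zero => simp [G]
  | succ s ih => rw [G_succ, ih, G_succ, map_mul]

/-- Casorati: pairwise non-similar terms are independent. -/
theorem cas_aux (n : ℕ) : ∀ (S : Finset ι), S.card = n → ∀ ρ : ι → F, (∀ i ∈ S, ρ i ≠ 0) →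
    (∀ i ∈ S, ∀ j ∈ S, i ≠ j → ∀ u : F, u ≠ 0 → σ u * ρ j ≠ u * ρ i) →
    ∀ v : ι → F, (∀ s < n, ∑ i ∈ S, v i * G σ ρ i s = 0) → ∀ i ∈ S, v i = 0 := by
  classical
  induction n with
  | zero =>
    intro S hS ρ _ _ v _ i hi
    rw [Finset.card_eq_zero] at hS
    rw [hS] at hi
    simp at hi
  | succ n ih =>
    intro S hS ρ hρ hns v hv
    by_contra hcon
    push Not at hcon
    obtain ⟨k, hk, hvk⟩ := hcon
    have hT : (S.erase k).card = n := by rw [card_erase_of_mem hk, hS]; rfl
    have hx : ∀ i ∈ S.erase k, v k * ρ k * σ (v i) - σ (v k) * v i * ρ i = 0 := by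
      apply ih (S.erase k) hT (fun i => σ (ρ i))
      · intro i hi
        exact (map_ne_zero σ).2 (hρ i (mem_of_mem_erase hi))
      · intro i hi j hj hij u hu h
        have hi' := hρ i (mem_of_mem_erase hi)
        have hj' := hρ j (mem_of_mem_erase hj)
        have hsi : σ (ρ i) ≠ 0 := (map_ne_zero σ).2 hi'
        refine hns i (mem_of_mem_erase hi) j (mem_of_mem_erase hj) hij (u * ρ j / ρ i)
          (div_ne_zero (mul_ne_zero hu hj') hi') ?_
        rw [map_div₀, map_mul, h]
        field_simp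
      · intro s hs
        have h1 : ∑ i ∈ S, σ (v i) * σ (G σ ρ i s) = 0 := by
          have h := congrArg σ (hv s (by omega))
          rw [map_sum, map_zero] at h
          simpa [map_mul] using h
        have h2 : ∑ i ∈ S, v i * (ρ i * σ (G σ ρ i s)) = 0 := hv (s + 1) (by omega)
        have h3 : ∑ i ∈ S, (v k * ρ k * σ (v i) - σ (v k) * v i * ρ i) * σ (G σ ρ i s) = 0 := by
          have e : ∑ i ∈ S, (v k * ρ k * σ (v i) - σ (v k) * v i * ρ i) * σ (G σ ρ i s)
              = v k * ρ k * ∑ i ∈ S, σ (v i) * σ (G σ ρ i s)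
                - σ (v k) * ∑ i ∈ S, v i * (ρ i * σ (G σ ρ i s)) := by
            rw [mul_sum, mul_sum, ← sum_sub_distrib]
            exact sum_congr rfl fun i _ => by ring
          rw [e, h1, h2]; ring
        rw [← add_sum_erase S _ hk] at h3
        have e0 : v k * ρ k * σ (v k) - σ (v k) * v k * ρ k = 0 := by ring
        rw [e0, zero_mul, zero_add] at h3
        rw [← h3]
        exact sum_congr rfl fun i _ => by rw [G_map]
    have hzero : ∀ i ∈ S.erase k, v i = 0 := by
      intro i hi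
      by_contra hvi
      have h := hx i hi
      have hik : i ≠ k := ne_of_mem_erase hi
      refine hns i (mem_of_mem_erase hi) k hk hik (v i / v k) (div_ne_zero hvi hvk) ?_
      have hsk : σ (v k) ≠ 0 := (map_ne_zero σ).2 hvk
      rw [map_div₀]
      field_simp
      linear_combination h
    have h0 := hv 0 (by omega)
    rw [← add_sum_erase S _ hk, sum_eq_zero (fun i hi => by rw [hzero i hi, zero_mul]), add_zero,
      G_zero, mul_one] at h0
    exact hvk h0

theorem cas (ρ : ι → F) (S : Finset ι) (hρ : ∀ i ∈ S, ρ i ≠ 0)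
    (hns : ∀ i ∈ S, ∀ j ∈ S, i ≠ j → ∀ u : F, u ≠ 0 → σ u * ρ j ≠ u * ρ i)
    (v : ι → F) (hv : ∀ s < S.card, ∑ i ∈ S, v i * G σ ρ i s = 0) : ∀ i ∈ S, v i = 0 :=
  cas_aux σ S.card S rfl ρ hρ hns v hv

end Cas

section Classes

open Polynomial

/-- number of roots of `P` (with multiplicity) in the class `α + ℤ` -/
def cl (α : ℚ) (P : ℚ[X]) : ℕ := by
  classical exact (P.roots.filter (fun x => ∃ n : ℤ, x = α + n)).card

theorem cl_mul (α : ℚ) {P Q : ℚ[X]} (hP : P ≠ 0) (hQ : Q ≠ 0) : cl α (P * Q) = cl α P + cl α Q := by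
  classical
  unfold cl
  rw [roots_mul (mul_ne_zero hP hQ), Multiset.filter_add, Multiset.card_add]

theorem roots_shift (P : ℚ[X]) : (P.comp (X + C 1)).roots = P.roots.map (fun x => x - 1) := by
  classical
  ext a
  rw [count_roots, Multiset.count_map]
  have h := rootMultiplicity_comp_C_mul_X_add_C P 1 1 a isUnit_one
  rw [C_1, one_mul, one_mul] at h
  rw [C_1, h, ← count_roots, Multiset.count_eq_card_filter_eq]
  congr 1
  apply Multiset.filter_congr
  intro x _
  constructor
  · rintro rfl; ring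
  · rintro rfl; ring

theorem cl_shift (α : ℚ) (P : ℚ[X]) : cl α (P.comp (X + C 1)) = cl α P := by
  classical
  unfold cl
  rw [roots_shift, Multiset.filter_map, Multiset.card_map]
  congr 1
  apply Multiset.filter_congr
  intro x _
  simp only [Function.comp]
  constructor
  · rintro ⟨n, hn⟩
    exact ⟨n + 1, by push_cast; linarith⟩
  · rintro ⟨n, hn⟩
    exact ⟨n - 1, by push_cast; linarith⟩

/-- `A(x+1) B(x) N(x) = A(x) B(x+1) M(x)` forces `N` and `M` to have the same number of roots in each class -/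
theorem cl_eq_of_similar (α : ℚ) {A B N M : ℚ[X]} (hA : A ≠ 0) (hB : B ≠ 0) (hN : N ≠ 0) (hM : M ≠ 0)
    (h : A.comp (X + C 1) * B * N = A * B.comp (X + C 1) * M) : cl α N = cl α M := by
  have hc : ∀ P : ℚ[X], P ≠ 0 → P.comp (X + C 1) ≠ 0 := by
    intro P hP
    rw [Ne, comp_eq_zero_iff]
    rintro (h | ⟨-, h⟩)
    · exact hP h
    · have := congrArg (fun q => coeff q 1) h
      simp at this
  have h1 := congrArg (cl α) h
  rw [cl_mul α (mul_ne_zero (hc A hA) hB) hN, cl_mul α (hc A hA) hB,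
    cl_mul α (mul_ne_zero hA (hc B hB)) hM, cl_mul α hA (hc B hB), cl_shift, cl_shift] at h1
  omega

theorem cl_prod (α : ℚ) {ι : Type*} (s : Finset ι) (f : ι → ℚ[X]) (hf : ∀ i ∈ s, f i ≠ 0) :
    cl α (∏ i ∈ s, f i) = ∑ i ∈ s, cl α (f i) := by
  classical
  induction s using Finset.induction_on with
  | empty => simp [cl]
  | insert i s hi ih =>
    rw [prod_insert hi, sum_insert hi, cl_mul α (hf i (mem_insert_self i s))
      (prod_ne_zero_iff.2 fun j hj => hf j (mem_insert_of_mem hj)),
      ih fun j hj => hf j (mem_insert_of_mem hj)]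

theorem cl_C (α c : ℚ) : cl α (C c) = 0 := by
  classical
  unfold cl; simp

/-- a linear factor `a X + b` with root in the class -/
theorem cl_lin_yes (α : ℚ) {a b : ℚ} (ha : a ≠ 0) (h : ∃ n : ℤ, -(a⁻¹ * b) = α + n) :
    cl α (C a * X + C b) = 1 := by
  classical
  unfold cl
  rw [roots_C_mul_X_add_C b ha]
  obtain ⟨n, hn⟩ := h
  rw [Multiset.filter_singleton, if_pos ⟨n, hn⟩, Multiset.card_singleton]

/-- a linear factor `a X + b` with root outside the class -/
theorem cl_lin_no (α : ℚ) {a b : ℚ} (ha : a ≠ 0) (h : ¬ ∃ n : ℤ, -(a⁻¹ * b) = α + n) :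
    cl α (C a * X + C b) = 0 := by
  classical
  unfold cl
  rw [roots_C_mul_X_add_C b ha, Multiset.filter_singleton, if_neg h]
  rfl

end Classes

end H11FD
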