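import Pool.Agent.H11.FD.Cas

/-!
# FD: the zero estimate

`P κ` polynomials, `H κ s` (`= Z κ (x + s) R κ s (x)`), `r κ = N κ / M κ`.  If all the sums
`∑ P κ (a + y) J κ a (y)` vanish to order `e` at the nodes `a < L` then the Casorati determinant
`det (P κ (x + s) H κ s (x))` vanishes at the points `a` to order `e - n u`, hence identically, which contradicts `cas`.
-/

set_option autoImplicit false

noncomputable section

namespace H11FD

open Finset Polynomial

/-- the shift of `ℚ[X]` -/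
def shR : ℚ[X] →+* ℚ[X] := compRingHom (X + C 1)

theorem shR_apply (P : ℚ[X]) : shR P = P.comp (X + C 1) := rfl

theorem shR_inj : Function.Injective shR := by
  intro P Q h
  have h2 : (P - Q).comp (X + C 1) = 0 := by
    rw [sub_comp]
    rw [shR_apply, shR_apply] at h
    rw [h, sub_self]
  rw [comp_eq_zero_iff] at h2
  rcases h2 with h | ⟨-, h⟩
  · exact sub_eq_zero.1 h
  · have := congrArg (fun q => coeff q 1) h
    simp at this

/-- the shift of the field of rational functions -/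
def sh : FractionRing ℚ[X] →+* FractionRing ℚ[X] := IsFractionRing.map (j := shR) shR_inj

theorem sh_alg (P : ℚ[X]) :
    sh (algebraMap ℚ[X] (FractionRing ℚ[X]) P) = algebraMap ℚ[X] (FractionRing ℚ[X]) (P.comp (X + C 1)) := by
  unfold sh IsFractionRing.map
  rw [IsLocalization.map_eq]; rfl

/-- `∏ columns`: if the sum of the columns is divisible by `D` then so is the determinant -/
theorem dvd_det_of_sum {n : ℕ} (hn : 0 < n) {R : Type*} [CommRing R] (A : Matrix (Fin n) (Fin n) R) (D : R)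
    (h : ∀ s, D ∣ ∑ j, A s j) : D ∣ A.det := by
  choose g hg using h
  have h1 : A.updateCol ⟨0, hn⟩ (fun s => ∑ j, A s j) = A.updateCol ⟨0, hn⟩ (fun s => D • g s) := by
    congr 1
    ext s
    rw [hg s]; rfl
  have h2 : (A.updateCol ⟨0, hn⟩ (fun s => ∑ j, A s j)).det = A.det := by
    have h3 := Matrix.det_updateCol_sum A ⟨0, hn⟩ (fun _ => 1)
    simpa using h3
  rw [← h2, h1, show (fun s => D • g s) = D • g from rfl, Matrix.det_updateCol_smul]
  exact Dvd.intro _ rfl

/-- a polynomial with too many zeros vanishes -/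
theorem eq_zero_of_zeros (D : ℚ[X]) (n e : ℕ) (h : ∀ a < n, X ^ e ∣ D.comp (X + C (a : ℚ)))
    (hd : D.natDegree < n * e) : D = 0 := by
  by_contra hD
  have h1 : ∏ a ∈ range n, (X - C (a : ℚ)) ^ e ∣ D := by
    apply Finset.prod_dvd_of_coprime
    · intro a _ b _ hab
      apply IsCoprime.pow
      apply Polynomial.isCoprime_X_sub_C_of_isUnit_sub
      have : (a : ℚ) - b ≠ 0 := sub_ne_zero.2 (by exact_mod_cast hab)
      exact this.isUnit
    · intro a ha
      obtain ⟨g, hg⟩ := h a (mem_range.1 ha)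
      refine ⟨g.comp (X - C (a : ℚ)), ?_⟩
      have h2 := congrArg (fun q => q.comp (X - C (a : ℚ))) hg
      simp only [comp_assoc, mul_comp, pow_comp, X_comp, add_comp, C_comp, sub_add_cancel, comp_X] at h2
      exact h2
  have h3 := natDegree_le_of_dvd h1 hD
  rw [natDegree_prod_of_monic _ _ (fun a _ => (monic_X_sub_C _).pow e)] at h3
  simp only [natDegree_pow, natDegree_X_sub_C, sum_const, card_range, mul_one, smul_eq_mul] at h3
  omega

theorem natDegree_det_le {n : ℕ} (A : Matrix (Fin n) (Fin n) ℚ[X]) (d : ℕ)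
    (h : ∀ s j, (A s j).natDegree ≤ d) : A.det.natDegree ≤ n * d := by
  rw [Matrix.det_apply]
  apply natDegree_sum_le_of_forall_le
  intro σ _
  refine (natDegree_smul_le _ _).trans ?_
  refine (natDegree_prod_le _ _).trans ?_
  calc ∑ i, (A (σ i) i).natDegree ≤ ∑ _i : Fin n, d := sum_le_sum fun i _ => h _ _
    _ = n * d := by simp

theorem G_succ' {F : Type*} [Field F] (σ : F →+* F) {ι : Type*} (ρ : ι → F) (i : ι) (s : ℕ) :
    G σ ρ i (s + 1) = G σ ρ i s * σ^[s] (ρ i) := by
  induction s with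
  | zero => simp [G]
  | succ s ih =>
    rw [G_succ, ih, map_mul, ← mul_assoc, ← G_succ, Function.iterate_succ_apply', ih]

theorem sh_iter (P : ℚ[X]) (s : ℕ) :
    sh^[s] (algebraMap ℚ[X] (FractionRing ℚ[X]) P)
      = algebraMap ℚ[X] (FractionRing ℚ[X]) (P.comp (X + C (s : ℚ))) := by
  induction s with
  | zero => simp
  | succ s ih =>
    rw [Function.iterate_succ_apply', ih, sh_alg, comp_assoc]
    congr 2
    simp only [add_comp, X_comp, C_comp]
    push_cast
    rw [C_add, add_assoc, add_comm (C (1 : ℚ))]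

theorem sh_iter_div (a b : FractionRing ℚ[X]) (s : ℕ) : sh^[s] (a / b) = sh^[s] a / sh^[s] b := by
  induction s with
  | zero => rfl
  | succ s ih => simp only [Function.iterate_succ_apply', ih, map_div₀]

theorem comp_ne_zero (P : ℚ[X]) (hP : P ≠ 0) (c : ℚ) : P.comp (X + C c) ≠ 0 := by
  rw [Ne, comp_eq_zero_iff]
  rintro (h | ⟨-, h⟩)
  · exact hP h
  · have := congrArg (fun q => coeff q 1) h
    simp at this

/-- abstract zero estimate -/
theorem zero_est (S : Finset ℕ) (hS : S.Nonempty) (P Z N M : ℕ → ℚ[X]) (H : ℕ → ℕ → ℚ[X]) (J U V : ℕ → ℕ → ℚ[X])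
    (L e u n0 h : ℕ) (hP : ∀ κ ∈ S, P κ ≠ 0) (hPd : ∀ κ ∈ S, (P κ).natDegree ≤ n0)
    (hHd : ∀ κ ∈ S, ∀ s < S.card, (H κ s).natDegree ≤ h) (hZ : ∀ κ ∈ S, Z κ ≠ 0)
    (hN : ∀ κ ∈ S, N κ ≠ 0) (hM : ∀ κ ∈ S, M κ ≠ 0) (hH0 : ∀ κ ∈ S, H κ 0 = Z κ)
    (hHs : ∀ κ ∈ S, ∀ s, s + 1 < S.card →
      (M κ).comp (X + C (s : ℚ)) * H κ (s + 1) * (Z κ).comp (X + C (s : ℚ)) =
        (N κ).comp (X + C (s : ℚ)) * H κ s * (Z κ).comp (X + C ((s + 1 : ℕ) : ℚ)))
    (hJ : ∀ κ ∈ S, ∀ a s, s < S.card → a + s < L →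
      V κ a * J κ (a + s) = U κ a * (H κ s).comp (X + C (a : ℚ)))
    (hU : ∀ κ ∈ S, ∀ a < L, ∃ t ≤ u, ∃ W : ℚ[X], U κ a = X ^ t * W ∧ W.coeff 0 ≠ 0)
    (hns : ∀ κ ∈ S, ∀ κ' ∈ S, κ ≠ κ' → ∃ α, cl α (N κ' * M κ) ≠ cl α (N κ * M κ'))
    (hdeg : S.card * (n0 + h) < (L + 1 - S.card) * (e - S.card * u))
    (hv : ∀ a < L, X ^ e ∣ ∑ κ ∈ S, (P κ).comp (X + C (a : ℚ)) * J κ a) : False := by
  classical
  set n := S.card with hn
  have hn0 : 0 < n := Finset.card_pos.2 hS
  let E : Fin n ≃ S := S.equivFin.symm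
  have hsum : ∀ {R : Type} [AddCommMonoid R] (f : ℕ → R), ∑ j, f (E j) = ∑ κ ∈ S, f κ := by
    intro R _ f
    rw [Equiv.sum_comp E (fun κ : S => f κ), Finset.sum_coe_sort S f]
  let A : Matrix (Fin n) (Fin n) ℚ[X] :=
    Matrix.of fun s j => (P (E j)).comp (X + C ((s : ℕ) : ℚ)) * H (E j) s
  -- the determinant vanishes
  have hA : A.det = 0 := by
    apply eq_zero_of_zeros A.det (L + 1 - n) (e - n * u)
    · intro a ha
      let T : Matrix (Fin n) (Fin n) ℚ[X] :=
        Matrix.of fun s j => (P (E j)).comp (X + C ((a + (s : ℕ) : ℕ) : ℚ)) * J (E j) (a + s)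
      have h1 : X ^ e ∣ T.det := by
        apply dvd_det_of_sum hn0
        intro s
        have h2 := hv (a + s) (by have := s.2; omega)
        have h3 : ∑ j, T s j = ∑ κ ∈ S, (P κ).comp (X + C ((a + (s : ℕ) : ℕ) : ℚ)) * J κ (a + s) :=
          hsum (fun κ => (P κ).comp (X + C ((a + (s : ℕ) : ℕ) : ℚ)) * J κ (a + s))
        rw [h3]; exact h2
      have h4 : (A.det).comp (X + C (a : ℚ)) = (A.map (fun q => q.comp (X + C (a : ℚ)))).det := by
        have := RingHom.map_det (compRingHom (X + C (a : ℚ))) A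
        exact this
      have h5 : (∏ j, U (E j) a) * (A.map (fun q => q.comp (X + C (a : ℚ)))).det
          = (∏ j, V (E j) a) * T.det := by
        rw [← Matrix.det_mul_row, ← Matrix.det_mul_row]
        congr 1
        ext1 s j
        have h6 := hJ (E j) (E j).2 a s s.2 (by have := s.2; omega)
        simp only [Matrix.of_apply, Matrix.map_apply, A, T, mul_comp]
        rw [comp_assoc]
        have h7 : (X + C ((s : ℕ) : ℚ)).comp (X + C (a : ℚ)) = X + C ((a + (s : ℕ) : ℕ) : ℚ) := by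
          simp only [add_comp, X_comp, C_comp]
          push_cast
          rw [C_add, add_assoc]
        rw [h7]
        linear_combination (-(P (E j)).comp (X + C ((a + (s : ℕ) : ℕ) : ℚ))) * h6
      have h8 : X ^ e ∣ (∏ j, U (E j) a) * (A.det).comp (X + C (a : ℚ)) := by
        rw [h4, h5]; exact Dvd.dvd.mul_left h1 _
      choose t ht W hW hW0 using fun j : Fin n => hU (E j) (E j).2 a (by omega)
      have h9 : (∏ j, U (E j) a) = X ^ (∑ j, t j) * ∏ j, W j := by
        rw [← Finset.prod_pow_eq_pow_sum, ← Finset.prod_mul_distrib]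
        exact Finset.prod_congr rfl fun j _ => hW j
      have h10 : ∑ j, t j ≤ n * u := by
        calc ∑ j, t j ≤ ∑ _j : Fin n, u := Finset.sum_le_sum fun j _ => ht j
          _ = n * u := by simp
      have h11 : ¬ X ∣ ∏ j, W j := by
        rw [Prime.dvd_finsetProd_iff prime_X]
        rintro ⟨j, -, hj⟩
        rw [X_dvd_iff] at hj
        exact hW0 j hj
      apply prime_X.pow_dvd_of_dvd_mul_left _ h11
      rcases le_or_gt e (∑ j, t j) with hle | hgt
      · rw [show e - n * u = 0 by omega]; simp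
      · have h12 : X ^ (∑ j, t j) * X ^ (e - ∑ j, t j) ∣
            X ^ (∑ j, t j) * ((∏ j, W j) * (A.det).comp (X + C (a : ℚ))) := by
          rw [← pow_add, ← mul_assoc, ← h9]
          rwa [show ∑ j, t j + (e - ∑ j, t j) = e by omega]
        have h13 := (mul_dvd_mul_iff_left (pow_ne_zero _ (X_ne_zero (R := ℚ)))).1 h12
        exact (pow_dvd_pow _ (by omega)).trans h13
    · refine lt_of_le_of_lt ?_ hdeg
      apply natDegree_det_le
      intro s j
      refine natDegree_mul_le.trans (add_le_add ?_ (hHd _ (E j).2 _ s.2))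
      have hc : ((P (E j)).comp (X + C ((s : ℕ) : ℚ))).natDegree ≤ n0 := by
        rw [natDegree_comp, natDegree_X_add_C, mul_one]
        exact hPd _ (E j).2
      exact hc
  -- pass to the field of rational functions
  let Fr := FractionRing ℚ[X]
  let al := algebraMap ℚ[X] Fr
  have al_ne : ∀ Q : ℚ[X], Q ≠ 0 → al Q ≠ 0 := fun Q hQ h0 =>
    hQ ((IsFractionRing.injective ℚ[X] Fr) (by rw [map_zero]; exact h0))
  let ρ : ℕ → Fr := fun κ => (al ((P κ * Z κ).comp (X + C 1) * N κ)) / (al (P κ * Z κ * M κ))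
  have hW : ∀ κ ∈ S, P κ * Z κ ≠ 0 := fun κ hκ => mul_ne_zero (hP κ hκ) (hZ κ hκ)
  have hG : ∀ κ ∈ S, ∀ s < n, al (P κ * Z κ) * G sh ρ κ s = al ((P κ).comp (X + C (s : ℚ)) * H κ s) := by
    intro κ hκ s
    induction s with
    | zero =>
      intro _
      rw [G_zero, mul_one, hH0 κ hκ]
      simp
    | succ s ih =>
      intro hs
      have h1 := ih (by omega)
      rw [G_succ', ← mul_assoc, h1]
      have h2 : sh^[s] (ρ κ) = al ((P κ * Z κ).comp (X + C ((s + 1 : ℕ) : ℚ)) * (N κ).comp (X + C (s : ℚ)))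
          / al ((P κ * Z κ * M κ).comp (X + C (s : ℚ))) := by
        change sh^[s] ((al ((P κ * Z κ).comp (X + C 1) * N κ)) / (al (P κ * Z κ * M κ))) = _
        rw [sh_iter_div, sh_iter, sh_iter, mul_comp, comp_assoc]
        have h7 : ((X : ℚ[X]) + C 1).comp (X + C (s : ℚ)) = X + C ((s + 1 : ℕ) : ℚ) := by
          simp only [add_comp, X_comp, C_comp]
          push_cast
          rw [C_add, add_assoc]
        rw [h7]
      rw [h2]
      have h3 := hHs κ hκ s hs
      have h4 : al ((P κ * Z κ * M κ).comp (X + C (s : ℚ))) ≠ 0 := by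
        apply al_ne
        exact comp_ne_zero _ (mul_ne_zero (hW κ hκ) (hM κ hκ)) _
      rw [← mul_div_assoc, div_eq_iff h4, ← map_mul, ← map_mul]
      congr 1
      simp only [mul_comp]
      linear_combination (-(P κ).comp (X + C (s : ℚ)) * (P κ).comp (X + C ((s + 1 : ℕ) : ℚ))) * h3
  have hdet : (A.map al).det = 0 := by
    have := RingHom.map_det al A
    rw [hA, map_zero] at this
    exact this.symm
  obtain ⟨v, hv0, hv1⟩ := Matrix.exists_mulVec_eq_zero_iff.2 hdet
  let v' : ℕ → Fr := fun κ => if hκ : κ ∈ S then v (E.symm ⟨κ, hκ⟩) * al (P κ * Z κ) else 0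
  have hv'E : ∀ j, v' (E j) = v j * al (P (E j) * Z (E j)) := by
    intro j
    simp only [v', dif_pos (E j).2]
    congr 2
    exact E.symm_apply_apply j
  have hz := cas sh ρ S (fun κ hκ => div_ne_zero
      (al_ne _ (mul_ne_zero (comp_ne_zero _ (hW κ hκ) _) (hN κ hκ)))
      (al_ne _ (mul_ne_zero (hW κ hκ) (hM κ hκ)))) (by
    intro i hi j hj hij w hw heq
    obtain ⟨B₁, B₂, hB₂, hB⟩ := IsFractionRing.div_surjective (A := ℚ[X]) w
    have hB₂' : B₂ ≠ 0 := nonZeroDivisors.ne_zero hB₂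
    have hB₁' : B₁ ≠ 0 := by
      rintro rfl
      apply hw
      rw [← hB, map_zero, zero_div]
    obtain ⟨α, hα⟩ := hns i hi j hj hij
    apply hα
    apply cl_eq_of_similar α (A := B₁ * (P j * Z j)) (B := B₂ * (P i * Z i))
      (mul_ne_zero hB₁' (hW j hj)) (mul_ne_zero hB₂' (hW i hi)) (mul_ne_zero (hN j hj) (hM i hi))
      (mul_ne_zero (hN i hi) (hM j hj))
    have h1 : al (B₁.comp (X + C 1)) / al (B₂.comp (X + C 1)) *
        (al ((P j * Z j).comp (X + C 1) * N j) / al (P j * Z j * M j)) =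
        al B₁ / al B₂ * (al ((P i * Z i).comp (X + C 1) * N i) / al (P i * Z i * M i)) := by
      have h2 : sh w = al (B₁.comp (X + C 1)) / al (B₂.comp (X + C 1)) := by
        rw [← hB, map_div₀, sh_alg, sh_alg]
      rw [← h2, hB]
      exact heq
    have n1 := al_ne _ (comp_ne_zero B₂ hB₂' 1)
    have n2 := al_ne _ (mul_ne_zero (hW j hj) (hM j hj))
    have n3 := al_ne _ hB₂'
    have n4 := al_ne _ (mul_ne_zero (hW i hi) (hM i hi))
    rw [div_mul_div_comm, div_mul_div_comm, div_eq_div_iff (mul_ne_zero n1 n2) (mul_ne_zero n3 n4),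
      ← map_mul, ← map_mul, ← map_mul, ← map_mul, ← map_mul, ← map_mul] at h1
    have h3 := (IsFractionRing.injective ℚ[X] Fr) h1
    simp only [mul_comp] at h3 ⊢
    linear_combination h3) v' (by
    intro s hs
    rw [← hsum (fun κ => v' κ * G sh ρ κ s)]
    have h1 := congrFun hv1 ⟨s, hs⟩
    simp only [Matrix.mulVec, dotProduct, Pi.zero_apply] at h1
    rw [← h1]
    refine Finset.sum_congr rfl fun j _ => ?_
    rw [hv'E, mul_assoc, hG _ (E j).2 s hs]
    simp only [Matrix.map_apply, A, Matrix.of_apply]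
    ring)
  apply hv0
  ext j
  have h1 := hz (E j) (E j).2
  rw [hv'E] at h1
  rcases mul_eq_zero.1 h1 with h | h
  · exact h
  · exact absurd h (al_ne _ (hW _ (E j).2))

end H11FD
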